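import Mathlib
import Pool.Agent.Helper26.AF.Goals

namespace Pool.Agent.Helper12.AF

open Pool.Agent.Helper26.AF

theorem sameCycle_const {D I : Type} (π : Equiv.Perm D) (f : D → I) (hf : ∀ x, f (π x) = f x)
    (x y : D) (h : π.SameCycle x y) : f x = f y := by
  have hz : ∀ k : ℤ, ∀ x, f ((π ^ k) x) = f x := by
    intro k
    induction k using Int.induction_on with
    | zero => intro x; simp
    | succ n ih =>
      intro x
      rw [zpow_add_one, Equiv.Perm.mul_apply, ih, hf]
    | pred n ih =>
      intro x
      rw [zpow_sub_one, Equiv.Perm.mul_apply, ih]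
      have := hf (π⁻¹ x)
      rw [show π (π⁻¹ x) = x from Equiv.apply_symm_apply π x] at this
      exact this.symm
  obtain ⟨k, hk⟩ := h
  rw [← hk, hz]

theorem goalBLK : StmtBLK := by
  intro D I _ _ _ _ π f hf
  have hp : ∀ i : I, ∀ x, f (π x) = i ↔ f x = i := fun i x => by rw [hf]
  let m : (Σ i : I, Quotient (Equiv.Perm.SameCycle.setoid
      (π.subtypePerm (p := fun x => f x = i) (hp i)))) →
      Quotient (Equiv.Perm.SameCycle.setoid π) :=
    fun s => Quotient.map' (s₂ := Equiv.Perm.SameCycle.setoid π) (fun x => x.1)
      (fun _ _ h => Equiv.Perm.sameCycle_subtypePerm.mp h) s.2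
  have hm : Function.Bijective m := by
    constructor
    · rintro ⟨i, a⟩ ⟨j, b⟩ h
      induction a using Quotient.inductionOn' with
      | h a =>
      induction b using Quotient.inductionOn' with
      | h b =>
      have h' : π.SameCycle a.1 b.1 := Quotient.exact' h
      have hij : i = j := by
        rw [← a.2, ← b.2]
        exact sameCycle_const π f hf _ _ h'
      subst hij
      congr 1
      exact Quotient.sound' (Equiv.Perm.sameCycle_subtypePerm.mpr h')
    · intro c
      induction c using Quotient.inductionOn' with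
      | h c =>
      exact ⟨⟨f c, Quotient.mk'' ⟨c, rfl⟩⟩, rfl⟩
  unfold orb
  rw [← Nat.card_congr (Equiv.ofBijective m hm), Nat.card_sigma]

end Pool.Agent.Helper12.AF
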