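import Pool.Agent.Helper15.AF.Goals2
import Pool.Agent.Helper78.DT.Av

/-!
# Project AF, packet UNI: two uniform strings give the right probabilities
-/

set_option autoImplicit false

namespace Pool.Agent.Helper12.AF

open Pool.Agent.Helper51.ZP Pool.Agent.Helper78.DT Pool.Agent.Helper78.JT Pool.Agent.Helper15.AF
open scoped Classical

/-- bit strings and vectors over the field with two elements -/
def eqv (n : ℕ) : (Fin n → Bool) ≃ (Fin n → ZMod 2) where
  toFun x := fun v => b2z (x v)
  invFun y := fun v => z2b (y v)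
  left_inv x := funext fun v => z2b_b2z (x v)
  right_inv y := funext fun v => b2z_z2b (y v)

theorem av_sg_dot (n : ℕ) (b : Fin n → ZMod 2) :
    av (fun x : Fin n → Bool => sg (dot b x)) = if b = 0 then 1 else 0 := by
  have h1 := Ex_sg_dot b
  have h2 : av (fun x : Fin n → Bool => sg (dot b x)) =
      av (fun a : Fin n → ZMod 2 => sg (a ⬝ᵥ b)) := by
    rw [← av_equiv (eqv n)]
    refine av_congr fun x => ?_
    congr 1
    unfold dot dotProduct
    exact Finset.sum_congr rfl fun v _ => mul_comm _ _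
  rw [h2]
  by_cases hb : b = 0
  · rw [if_pos hb]
    rw [if_pos hb] at h1
    exact h1
  · rw [if_neg hb]
    rw [if_neg hb] at h1
    exact h1

theorem hv_zero {n : ℕ} (P e w : ℕ) : hv P e w (0 : Fin n → ZMod 2) = 0 := by
  funext u
  unfold hv
  simp

theorem tm_zero {n : ℕ} (Y : ℕ → Bool) (m : ℕ) : tm Y m (0 : Fin n → ZMod 2) = 0 := by
  funext u
  unfold tm
  simp

/-- packet UNI -/
theorem uni (hI : IpcStmt) (hL : LtsStmt) (hV : InvStmt) : UniStmt := by
  intro Y m P e D w n r ρ t k μ F g a c hw hD hY hW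
  obtain ⟨-, h2, h3, -⟩ := hI
  have hP : 0 < P := by omega
  have h4 : av (fun u : Fin (2 ^ m) => th Y m P e w t k F g a c u) =
      pr (fun ω : Fin (2 ^ m) × Fin (2 ^ m) =>
        ts F t k g a c fun v => gb Y m P e ω.2 ω.1 w v) := by
    unfold pr
    rw [av_prod]
    rfl
  rw [h4]
  refine hL (Fin (2 ^ m) × Fin (2 ^ m)) (Fin n → Bool) n r ρ t k F g a c
    (fun ω v => gb Y m P e ω.2 ω.1 w v) (fun x => x) ?_
  intro l S hS
  rw [av_sg_dot]
  have h5 : av (fun ω : Fin (2 ^ m) × Fin (2 ^ m) =>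
      sg (dot (comb a l + ind S) fun v => gb Y m P e ω.2 ω.1 w v)) =
      (if tm Y m (comb a l + ind S) = 0 then (1 : ℝ) else 0) *
        (if tm Y m (hv P e w (comb a l + ind S)) = 0 then 1 else 0) := by
    rw [av_prod, ← h3 m (tm Y m (comb a l + ind S)), ← av_mul_right]
    refine av_congr fun u => ?_
    rw [← h3 m (tm Y m (hv P e w (comb a l + ind S))), ← av_mul_left]
    refine av_congr fun y => ?_
    rw [h2 Y m P e y u w n _ hP, sg_add, mul_comm]
  rw [h5]
  obtain ⟨-, -, h6⟩ := hV Y m P e D w n ρ μ a (varsJ g) hw hD hY hW l S hS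
  by_cases hb : comb a l + ind S = 0
  · rw [if_pos hb, hb, hv_zero, tm_zero, tm_zero, if_pos rfl, mul_one]
  · rw [if_neg hb]
    rcases h6 hb with h7 | h7
    · rw [if_neg h7, mul_zero]
    · rw [if_neg h7, zero_mul]

end Pool.Agent.Helper12.AF
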